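import Pool.Agent.Helper20.QP.St1

/-!
# Project QD (MP_d112a4_gt), PART P: module HY2
-/

set_option autoImplicit false

open Filter Topology Matrix Set Metric MeasureTheory
open scoped ComplexConjugate ENNReal

namespace Pool.Agent.Helper27.QP

open Pool.Agent.Helper35.PM (hs Mat SL IsDiscrete)
open Pool.Agent.Helper20.QD
open Pool.Agent.Helper20.QP

private theorem mob_one' (z : ℂ) : mob 1 z = z := by
  simp [mob]

private theorem nrmD {z : ℂ} (hz : z ∈ D) : ‖z‖ < 1 := mem_ball_zero_iff.1 hz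

private theorem dl_pos {z w : ℂ} (hz : z ∈ D) (hw : w ∈ D) (h : w ≠ z) : 0 < dl z w := by
  have h1 := nrmD hz
  have h2 := nrmD hw
  have h3 : 0 < 1 - ‖z‖ ^ 2 := by nlinarith [norm_nonneg z]
  have h4 : 0 < 1 - ‖w‖ ^ 2 := by nlinarith [norm_nonneg w]
  have h5 : 0 < ‖z - w‖ := norm_pos_iff.2 (sub_ne_zero.2 (Ne.symm h))
  unfold dl
  positivity

private theorem dl_bd {z w : ℂ} {r : ℝ} (hr0 : 0 ≤ r) (hr1 : r < 1) (hz : ‖z‖ ≤ r) (hw : w ∈ D)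
    (h : dl z w ≤ 1) : ‖w‖ ≤ 1 - (1 - r) ^ 2 / 8 := by
  have h2 := nrmD hw
  have h1 : ‖z‖ < 1 := lt_of_le_of_lt hz hr1
  have h3 : 0 < 1 - ‖z‖ ^ 2 := by nlinarith [norm_nonneg z]
  have h4 : 0 < 1 - ‖w‖ ^ 2 := by nlinarith [norm_nonneg w]
  unfold dl at h
  rw [div_le_one (mul_pos h3 h4)] at h
  have h5 : ‖w‖ - r ≤ ‖z - w‖ := by
    have := norm_sub_norm_le w z
    rw [norm_sub_rev] at this
    linarith
  have h6 : ‖z - w‖ ^ 2 ≤ 1 - ‖w‖ ^ 2 := by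
    have := mul_nonneg (sq_nonneg ‖z‖) h4.le
    nlinarith
  by_contra hcon
  push Not at hcon
  have h9 : (1 - r) ^ 2 ≤ 1 - r := by nlinarith
  have h7 : (1 - r) / 2 ≤ ‖w‖ - r := by linarith
  have h8 : ((1 - r) / 2) ^ 2 ≤ ‖z - w‖ ^ 2 :=
    pow_le_pow_left₀ (by linarith) (h7.trans h5) 2
  have h10 : 1 - ‖w‖ ^ 2 = (1 - ‖w‖) * (1 + ‖w‖) := by ring
  have h11 : (1 - ‖w‖) * (1 + ‖w‖) < (1 - r) ^ 2 / 8 * 2 := by
    have h12 : 1 - ‖w‖ < (1 - r) ^ 2 / 8 := by linarith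
    have h13 : 0 < 1 - ‖w‖ := by linarith
    nlinarith [norm_nonneg w]
  nlinarith

theorem hHY2 (hSUB : StSUB) (hMET : StMET) (hHY1 : StHY1) : StHY2 := by
  intro Γ _ σ hF hTF
  obtain ⟨s1, s2, s3, s4, s5, s6⟩ := hSUB
  obtain ⟨m1, m2, -, -, -, -, m7⟩ := hMET
  obtain ⟨-, -, y3, y4, y5, -⟩ := hHY1
  have hden : ∀ γ : Γ, ∀ z ∈ D, den (σ γ) z ≠ 0 := fun γ z hz =>
    (s1 _ (hF.su γ)).2.1 z (ball_subset_closedBall hz)
  have hmD : ∀ γ : Γ, ∀ z ∈ D, mob (σ γ) z ∈ D := fun γ z hz =>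
    (s1 _ (hF.su γ)).2.2.1.mapsTo hz
  have hmul : ∀ (β γ : Γ), ∀ z ∈ D, mob (σ (β * γ)) z = mob (σ β) (mob (σ γ) z) := by
    intro β γ z hz
    rw [map_mul]
    exact (s4 _ _ z (hden γ z hz)).1
  -- (A) fixed points
  have hA : ∀ γ : Γ, ∀ z ∈ D, mob (σ γ) z = z → γ = 1 := by
    intro γ z hz hfix
    have hn : ∀ n : ℕ, mob (σ (γ ^ n)) z = z := by
      intro n
      induction n with
      | zero => rw [pow_zero, map_one, mob_one']
      | succ n ih => rw [pow_succ, hmul _ _ z hz, hfix, ih]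
    have hbd : ∀ n : ℕ, γ ^ n ∈ {γ : Γ | hs (σ γ : Mat) ≤ 8 / (1 - ‖z‖) ^ 3} := by
      intro n
      refine s6 (σ (γ ^ n)) z ‖z‖ (hF.su _) (nrmD hz) le_rfl ?_
      rw [hn n]
    obtain ⟨i, j, hij, he⟩ := (hF.discrete (8 / (1 - ‖z‖) ^ 3)).exists_lt_map_eq_of_forall_mem hbd
    have h1 : γ ^ (j - i) = 1 := by
      have h2 : γ ^ j = γ ^ i * γ ^ (j - i) := by
        rw [← pow_add]
        congr 1
        omega
      rw [he] at h2
      exact (mul_eq_left.1 h2.symm)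
    exact hTF γ (j - i) (by omega) h1
  have h0D : (0 : ℂ) ∈ D := by simp
  -- (B)
  have hB : ∀ γ : Γ, ((σ γ : Mat) = 1 ∨ (σ γ : Mat) = -1) → γ = 1 := by
    intro γ h
    apply hA γ 0 h0D
    unfold mob
    rcases h with h | h <;> rw [h] <;> simp
  -- (C)
  obtain ⟨r0, hr1, hcc⟩ := hF.cocompact
  have hr0 : 0 ≤ r0 := by
    obtain ⟨γ, hγ⟩ := hcc 0 h0D
    exact (norm_nonneg _).trans hγ
  set r1 : ℝ := 1 - (1 - r0) ^ 2 / 8 with hr1def
  have hr11 : r1 < 1 := by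
    have : 0 < (1 - r0) ^ 2 := by
      have : 0 < 1 - r0 := by linarith
      positivity
    rw [hr1def]
    linarith
  have hr01 : r0 ≤ r1 := by
    have h9 : (1 - r0) ^ 2 ≤ 1 - r0 := by nlinarith
    rw [hr1def]
    linarith
  have hKD : closedBall (0 : ℂ) r0 ⊆ D := closedBall_subset_ball hr1
  have hFin := hF.discrete (8 / (1 - r1) ^ 3)
  have hloc : ∀ β : Γ, β ≠ 1 → ∃ m : ℝ, 0 < m ∧ ∀ z ∈ closedBall (0 : ℂ) r0,
      m ≤ dl z (mob (σ β) z) := by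
    intro β hβ
    have hcont : ContinuousOn (fun z => dl z (mob (σ β) z)) (closedBall (0 : ℂ) r0) := by
      have h1 : ContinuousOn (fun z : ℂ => (z, mob (σ β) z)) (closedBall (0 : ℂ) r0) := by
        apply continuousOn_id.prodMk
        intro z hz
        exact (s5 (σ β) z (hden β z (hKD hz))).continuousAt.continuousWithinAt
      have h2 : MapsTo (fun z : ℂ => (z, mob (σ β) z)) (closedBall (0 : ℂ) r0) (D ×ˢ D) :=
        fun z hz => ⟨hKD hz, hmD β z (hKD hz)⟩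
      have h3 := ContinuousOn.comp (g := fun p : ℂ × ℂ => dl p.1 p.2) m7 h1 h2
      exact h3
    obtain ⟨z0, hz0, hmin⟩ := (isCompact_closedBall (0 : ℂ) r0).exists_isMinOn
      ⟨0, by simpa using hr0⟩ hcont
    refine ⟨dl z0 (mob (σ β) z0), ?_, fun z hz => hmin hz⟩
    apply dl_pos (hKD hz0) (hmD β z0 (hKD hz0))
    intro h
    exact hβ (hA β z0 (hKD hz0) h)
  have hev : ∀ᶠ m in 𝓝[>] (0 : ℝ), ∀ β ∈ {γ : Γ | hs (σ γ : Mat) ≤ 8 / (1 - r1) ^ 3},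
      β ≠ 1 → ∀ z ∈ closedBall (0 : ℂ) r0, m ≤ dl z (mob (σ β) z) := by
    rw [Filter.eventually_all_finite hFin]
    intro β _
    by_cases hβ : β = 1
    · exact Filter.Eventually.of_forall fun m h => absurd hβ h
    · obtain ⟨m, hm, hmz⟩ := hloc β hβ
      have h1 : ∀ᶠ x in 𝓝[>] (0 : ℝ), x ≤ m :=
        mem_nhdsWithin_of_mem_nhds (Iic_mem_nhds hm)
      filter_upwards [h1] with x hx _ z hz
      exact hx.trans (hmz z hz)
  obtain ⟨m, hm, hm0⟩ := (hev.and self_mem_nhdsWithin).exists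
  have hm0' : (0 : ℝ) < m := hm0
  have hK : ∀ β : Γ, β ≠ 1 → ∀ z ∈ closedBall (0 : ℂ) r0, min m 1 ≤ dl z (mob (σ β) z) := by
    intro β hβ z hz
    by_cases h1 : dl z (mob (σ β) z) ≤ 1
    · have hz' : ‖z‖ ≤ r0 := mem_closedBall_zero_iff.1 hz
      have h2 := dl_bd hr0 hr1 hz' (hmD β z (hKD hz)) h1
      have h3 : hs (σ β : Mat) ≤ 8 / (1 - r1) ^ 3 :=
        s6 (σ β) z r1 (hF.su β) hr11 (hz'.trans hr01) h2
      exact (min_le_left _ _).trans (hm β h3 hβ z hz)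
    · exact (min_le_right _ _).trans (not_le.1 h1).le
  have hall : ∀ γ : Γ, γ ≠ 1 → ∀ z ∈ D, min m 1 ≤ dl z (mob (σ γ) z) := by
    intro γ hγ z hz
    obtain ⟨δ, hδ⟩ := hcc z hz
    have h1 : mob (σ (δ * γ * δ⁻¹)) (mob (σ δ) z) = mob (σ δ) (mob (σ γ) z) := by
      rw [← hmul _ _ z hz, ← hmul _ _ z hz]
      congr 2
      group
    have h2 : δ * γ * δ⁻¹ ≠ 1 := by
      intro h
      apply hγ
      exact (mul_inv_eq_one.1 h) |> fun h' => mul_eq_left.1 h'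
    have h3 := hK _ h2 (mob (σ δ) z) (mem_closedBall_zero_iff.2 hδ)
    rw [h1, m1 (σ δ) z (mob (σ γ) z) (hF.su δ) hz (hmD γ z hz)] at h3
    exact h3
  refine ⟨hB, hA, min m 1, lt_min hm0' one_pos, ?_⟩
  intro γ hγ
  rcases lt_trichotomy (sh (σ γ)) 0 with h | h | h
  · obtain ⟨z, hz, hfix⟩ := y3 _ (hF.su γ) h
    exact absurd (hA γ z hz hfix) hγ
  · obtain ⟨z, hz, hp, hlt⟩ := y4 _ (hF.su γ) h (fun h' => hγ (hB γ (Or.inl h')))
      (fun h' => hγ (hB γ (Or.inr h'))) (min m 1) (lt_min hm0' one_pos)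
    exact absurd (hall γ hγ z hz) (not_le.2 hlt)
  · obtain ⟨z, hz, he⟩ := y5 _ (hF.su γ) h
    rw [← he]
    exact hall γ hγ z hz

end Pool.Agent.Helper27.QP
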